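import Mathlib
import Pool.Agent.T2h83.US.Odd

/-!
# Simultaneous places of zeros of the gcd recursions in arbitrary sets of primes

By part (i) of the question the large zeros of the recursion for `m` are at integers `n` for which `n + 1` and `n + 2 m + 1`
are primes; we call such an `n` a place for `m`. Let `U` be ANY set of at least `x / (log x) ^ A` integers `n < x` for which
`n + 1` is prime. We prove that for all vectors `(m 1, …, m k)`, outside an exceptional set of relative size `ε`, at least
`(1 - ε) #U / (V(y) log x) ^ k` elements of `U` are places for all of `m 1, …, m k`, where `V(y)` is the product of the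
`1 - 1 / l` over the primes `l ≤ y`; the `m i` are multiples of all the odd primes up to `y`, a multiple of `log log x`, and
run over residue classes modulo almost all moduli up to `x / (log x) ^ B`, where the classes have only a power of `log x`
elements. Nothing is assumed about the set `U`.

Method: for the elements of `U` and the shifts of a class the von Mangoldt function is replaced by a sieve model (large sieve
over the cells of almost all moduli, project AM); the second moment of the number of the `n ∈ U` for which `n + 1 + 2 m` has no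
small prime factor, over the `m` of the class, is found by the fundamental lemma of the sieve and averages over the pairs
of elements of `U`. For several `m` the result for one `m` is applied to the subsets found before.
-/

set_option autoImplicit false

namespace Pool.Agent.Results.MP_9227d9_nt.ArbitrarySetsOfPlaces

open Finset

/-- the product of the odd primes up to `y` -/
def W (y : ℕ) : ℕ := ∏ p ∈ (Icc 3 y).filter Nat.Prime, p

/-- the product of the `1 - 1 / p` over the primes `p ≤ y` -/
noncomputable def V (y : ℕ) : ℝ := ∏ p ∈ (Icc 1 y).filter Nat.Prime, (1 - 1 / (p : ℝ))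

open Classical in
/-- the positive multiples `m ≤ x / 2` of `W y` for which `m / W y` is `≡ r (mod q)` -/
noncomputable def multiples (x y q r : ℕ) : Finset ℕ :=
  (Icc 1 x).filter (fun m => 2 * m ≤ x ∧ ∃ g : ℕ, m = W y * g ∧ g ≡ r [MOD q])

/-- `n` is a place for `m` -/
def Place (m n : ℕ) : Prop := (n + 1).Prime ∧ (n + 2 * m + 1).Prime

open Classical in
/-- the number of the elements of `U` which are places for all the `m i` -/
noncomputable def common {k : ℕ} (U : Finset ℕ) (m : Fin k → ℕ) : ℕ := (U.filter (fun n => ∀ i, Place (m i) n)).card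

open Classical in
/-- Let `k`, `A`, `T` be natural numbers and `0 < ε ≤ 1`. There is `K₀` such that for every `K₁` there are `B` and `x₀` such
that for all `x ≥ x₀`, all `y` between `K₀ log log x` and `K₁ log log x` and all integers `Q` with `Q (log x) ^ B ≤ x` there
is a set `E` of at most `Q / (log x) ^ T` integers such that the following holds for all `q 1, …, q k` in `(Q, 2 Q]` outside
`E` and all residue classes `r i` modulo `q i` for which the prime factors `p` of `q i`, `y < p ≤ (log x) ^ B`, divide
`r i` (for instance, all classes if the `q i` are primes larger than `(log x) ^ B`). For EVERY set `U` of at least `x / (log x) ^ A` integers `n < x` for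
which `n + 1` is prime, for all vectors of elements `m i` of `multiples x y (q i) (r i)`, except for at most `ε` times the
product of the `x / (2 W y q i)`, at least `(1 - ε) #U / (V y log x) ^ k` elements of `U` are places for all the `m i`. -/
theorem result (k A T : ℕ) (ε : ℝ) (hε : 0 < ε) (hε1 : ε ≤ 1) : ∃ K₀ : ℕ, ∀ K₁ : ℕ, ∃ B x₀ : ℕ, ∀ x : ℕ, x₀ ≤ x →
    ∀ y : ℕ, K₀ * Real.log (Real.log x) ≤ y → (y : ℝ) ≤ K₁ * Real.log (Real.log x) →
    ∀ Q : ℕ, (Q : ℝ) * Real.log x ^ B ≤ x →
    ∃ E : Finset ℕ, (E.card : ℝ) ≤ Q / Real.log x ^ T ∧ ∀ q r : Fin k → ℕ,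
      (∀ i, q i ∈ Ioc Q (2 * Q) ∧ q i ∉ E) →
      (∀ i, ∀ p : ℕ, p.Prime → y < p → (p : ℝ) ≤ Real.log x ^ B → p ∣ q i → p ∣ r i) →
      ∀ U : Finset ℕ, (∀ n ∈ U, (n + 1).Prime ∧ n < x) → (x : ℝ) ≤ U.card * Real.log x ^ A →
        (((Fintype.piFinset (fun i => multiples x y (q i) (r i))).filter (fun m =>
          (common U m : ℝ) < (1 - ε) * (U.card / (V y * Real.log x) ^ k))).card : ℝ) ≤
          ε * ∏ i, (x / (2 * W y * q i) : ℝ) := by
  obtain ⟨K₀, h1⟩ := Pool.Agent.T2h83.US.us_vec k 1 A T ε hε hε1
  refine ⟨K₀ + 1, fun K₁ => ?_⟩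
  obtain ⟨B, x₁, h2⟩ := h1 K₁
  obtain ⟨x₂, h3⟩ := Pool.Agent.T2h83.US.sizes K₁ 2
  obtain ⟨x₃, h4⟩ := Pool.Agent.H373R2.T7.ev_L' (Real.exp 1)
  refine ⟨B, x₁ + x₂ + x₃, fun x hx y hy1 hy2 Q hQ => ?_⟩
  have hL := h4 x (by omega)
  have hlL : 0 ≤ Real.log (Real.log x) := by
    apply Real.log_nonneg
    have := Real.add_one_le_exp (1 : ℝ)
    linarith
  have hK0 : (0 : ℝ) ≤ K₀ := Nat.cast_nonneg _
  push_cast at hy1
  obtain ⟨hy, -⟩ := h3 x (by omega) y (by nlinarith) hy2
  obtain ⟨E, hE1, hE2⟩ := h2 x (by omega) y (by linarith) hy2 Q hQ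
  refine ⟨E, hE1, fun q r hq hr U hU hUc => ?_⟩
  have hM : primorial y = 2 * W y := Pool.Agent.T2h83.US.primorial_odd y hy
  have hW1 : 1 ≤ W y := Pool.Agent.T2h83.US.oddP_pos y
  have hinj : Set.InjOn (fun n : ℕ => n + 1) (U : Set ℕ) := fun a _ b _ h => by simpa using h
  have h5 := hE2 (fun _ => 1) (fun _ => 0) r q hq (fun _ => ⟨le_rfl, le_rfl, Nat.zero_le _⟩) (fun _ l s hl hly hs hys hd => by
      have hd' : l ∣ 1 * s + 0 := hd
      rw [one_mul, add_zero] at hd'
      have := (Nat.prime_dvd_prime_iff_eq hl hs).1 hd'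
      omega)
    (fun i p hp hyp hpL hpq => (hr i p hp hyp hpL hpq).mul_left _) (U.image (fun n => n + 1))
    (fun p hp => by
      rw [mem_image] at hp
      obtain ⟨n, hn, rfl⟩ := hp
      rw [mem_Icc]
      have := (hU n hn).2
      omega) (fun p hp => by
      rw [mem_image] at hp
      obtain ⟨n, hn, rfl⟩ := hp
      exact (hU n hn).1) (by
      rw [card_image_of_injOn hinj]
      exact hUc)
  rw [hM, card_image_of_injOn hinj] at h5
  have hcast : ∏ i, ((x : ℝ) / (((2 * W y : ℕ) : ℝ) * (q i : ℝ))) = ∏ i, (x / (2 * W y * q i) : ℝ) := by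
    push_cast
    rfl
  rw [hcast] at h5
  refine le_trans ((Nat.cast_le (α := ℝ)).2 ?_) h5
  apply card_le_card_of_injOn (fun m i => m i / W y)
  · intro m hm
    rw [mem_coe, mem_filter, Fintype.mem_piFinset] at hm
    rw [mem_coe, mem_filter, Fintype.mem_piFinset]
    have hdiv : ∀ i, m i = W y * (m i / W y) ∧ m i / W y ≡ r i [MOD q i] := by
      intro i
      have h6 := hm.1 i
      unfold multiples at h6
      rw [mem_filter] at h6
      obtain ⟨g, hg1, hg2⟩ := h6.2.2
      rw [hg1, Nat.mul_div_cancel_left _ hW1]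
      exact ⟨rfl, hg2⟩
    refine ⟨fun i => ?_, lt_of_le_of_lt (le_of_eq ?_) hm.2⟩
    · have h6 := hm.1 i
      unfold multiples at h6
      rw [mem_filter, mem_Icc] at h6
      unfold Pool.Agent.T2h83.US.cls
      rw [mem_filter, mem_Icc, hM]
      have h7 := (hdiv i).1
      have h8 : 1 ≤ m i / W y := by
        rcases Nat.eq_zero_or_pos (m i / W y) with h9 | h9
        · rw [h9, mul_zero] at h7
          omega
        · exact h9
      have h10 : m i / W y ≤ m i := Nat.div_le_self _ _
      have h12 : m i ≤ x := by omega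
      refine ⟨⟨h8, h10.trans h12⟩, ?_, (hdiv i).2⟩
      show 2 * W y * (m i / W y) ≤ x
      rw [mul_assoc, ← h7]
      exact h6.2.1
    · unfold common
      congr 1
      have h11 : ((U.filter (fun n => ∀ i, Place (m i) n)).image (fun n : ℕ => n + 1)).card =
          (U.filter (fun n => ∀ i, Place (m i) n)).card :=
        card_image_of_injective _ (fun a b h => by simpa using h)
      rw [← h11]
      congr 1
      ext p
      rw [mem_filter, mem_image, mem_image]
      have h6 : ∀ (i : Fin k) (n : ℕ), 1 * (n + 1) + (2 * W y * (m i / W y) + 0) = n + 2 * m i + 1 := by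
        intro i n
        rw [mul_assoc 2, ← (hdiv i).1]
        ring
      constructor
      · rintro ⟨⟨n, hn, rfl⟩, h7⟩
        refine ⟨n, mem_filter.2 ⟨hn, fun i => ⟨(hU n hn).1, ?_⟩⟩, rfl⟩
        have := h7 i
        rw [h6] at this
        exact this
      · rintro ⟨n, hn, rfl⟩
        rw [mem_filter] at hn
        refine ⟨⟨n, hn.1, rfl⟩, fun i => ?_⟩
        rw [h6]
        exact (hn.2 i).2
  · intro m hm m' hm' h
    rw [mem_coe, mem_filter, Fintype.mem_piFinset] at hm hm'
    funext i
    have h6 := hm.1 i
    have h7 := hm'.1 i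
    unfold multiples at h6 h7
    rw [mem_filter] at h6 h7
    obtain ⟨g, hg1, hg2⟩ := h6.2.2
    obtain ⟨g', hg1', hg2'⟩ := h7.2.2
    have h8 := congrFun h i
    simp only at h8
    rw [hg1, hg1', Nat.mul_div_cancel_left _ hW1, Nat.mul_div_cancel_left _ hW1] at h8
    rw [hg1, hg1', h8]

end Pool.Agent.Results.MP_9227d9_nt.ArbitrarySetsOfPlaces
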