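import Pool.Agent.K93.SD.Main

/-!
# The gcd recursion with `n (n + 2)`: few zeros, and slow descents from almost all starting points

The case `m = 1` of the problem (`a 1 = 4`, gcd with `n (n + 2)`): the number of zeros up to `X` is
`O(X exp (-c (log X)^(1/4)))`; and for all but `O(X exp (-c (log X)^(1/4)))` of the integers `n ≤ X` the recursion started with a
zero at `n` has no further zero up to `n + exp (c (log X)^(1/4))`. Since `n (n + 2) = (n + 1)^2 - 1`, this follows from the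
theorem for the recursion with `n^2 - 1` and arbitrary initial value (`K93/SD/Main.lean`) by a shift.
-/

set_option autoImplicit false

namespace Pool.Agent.Results.MP_9227d9_nt.FewZerosGapTwo

lemma bound {c C : ℝ} (hc : 0 < c) (hC : 0 < C) {X : ℕ} (hX : 2 ≤ X) :
    C * ((X + 1 : ℕ) : ℝ) * Real.exp (-(c * Real.log ((X + 1 : ℕ) : ℝ) ^ (1 / 4 : ℝ))) ≤
      2 * C * X * Real.exp (-(c * Real.log X ^ (1 / 4 : ℝ))) := by
  have hX' : (2 : ℝ) ≤ X := by exact_mod_cast hX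
  have h1 : Real.log X ≤ Real.log ((X + 1 : ℕ) : ℝ) := Real.log_le_log (by linarith) (by push_cast; linarith)
  have h2 : Real.log X ^ (1 / 4 : ℝ) ≤ Real.log ((X + 1 : ℕ) : ℝ) ^ (1 / 4 : ℝ) :=
    Real.rpow_le_rpow (Real.log_natCast_nonneg X) h1 (by norm_num)
  have h3 : Real.exp (-(c * Real.log ((X + 1 : ℕ) : ℝ) ^ (1 / 4 : ℝ))) ≤ Real.exp (-(c * Real.log X ^ (1 / 4 : ℝ))) :=
    Real.exp_le_exp.2 (by nlinarith)
  have h4 : C * ((X + 1 : ℕ) : ℝ) ≤ 2 * C * X := by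
    push_cast
    nlinarith
  exact mul_le_mul h4 h3 (Real.exp_pos _).le (by positivity)

lemma shift (v : ℤ) (i : ℕ) (_hi : 1 ≤ i) :
    Int.gcd v ((((i + 1 : ℕ) : ℤ)) ^ 2 - 1) = Int.gcd v ((i : ℤ) * ((i : ℤ) + 2)) := by
  congr 1
  push_cast
  ring

/-- There are `c, C > 0` such that for all `X ≥ 2`:
(1) the sequence of the problem for `m = 1` has at most `C X exp (-c (log X)^(1/4))` zeros `n ≤ X`;
(2) for all but `C X exp (-c (log X)^(1/4))` of the `n ≤ X`, every sequence with `a n = 0` which satisfies the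
recursion (for `m = 1`) after `n` has no zero `n'` with `n < n' ≤ n + exp (c (log X)^(1/4))`. -/
theorem result :
    ∃ c C : ℝ, 0 < c ∧ 0 < C ∧
      (∀ a : ℕ → ℤ, a 1 = 4 →
        (∀ n : ℕ, 2 ≤ n → a n = |a (n - 1) - ((Int.gcd (a (n - 1)) ((n : ℤ) * ((n : ℤ) + 2)) : ℕ) : ℤ)|) →
        ∀ X : ℕ, 2 ≤ X → ({n : ℕ | 1 ≤ n ∧ n ≤ X ∧ a n = 0}.ncard : ℝ) ≤
          C * X * Real.exp (-(c * Real.log X ^ (1 / 4 : ℝ)))) ∧
      ∀ X : ℕ, 2 ≤ X →
        ({n : ℕ | 1 ≤ n ∧ n ≤ X ∧ ¬ ∀ a : ℕ → ℤ,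
          (∀ i : ℕ, n < i → a i = |a (i - 1) - ((Int.gcd (a (i - 1)) ((i : ℤ) * ((i : ℤ) + 2)) : ℕ) : ℤ)|) → a n = 0 →
          ∀ n' : ℕ, n < n' → (n' : ℝ) ≤ n + Real.exp (c * Real.log X ^ (1 / 4 : ℝ)) → a n' ≠ 0}.ncard : ℝ) ≤
          C * X * Real.exp (-(c * Real.log X ^ (1 / 4 : ℝ))) := by
  obtain ⟨c, C, hc, hC, h1, h2⟩ := Pool.Agent.K93.SD.Main.main
  refine ⟨c, 2 * C, hc, by positivity, fun a ha1 ha X hX => ?_, fun X hX => ?_⟩
  · refine le_trans ?_ (bound hc hC hX)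
    obtain ⟨b, hb⟩ : ∃ b : ℕ → ℤ, b = fun n => if n ≤ 1 then 5 else a (n - 1) := ⟨_, rfl⟩
    have hb2 : ∀ n, 1 ≤ n → b (n + 1) = a n := by
      intro n hn
      rw [hb]
      simp only
      rw [if_neg (by omega), Nat.add_sub_cancel]
    have hbs : ∀ n : ℕ, 2 ≤ n → b n = |b (n - 1) - ((Int.gcd (b (n - 1)) ((n : ℤ) ^ 2 - 1) : ℕ) : ℤ)| := by
      intro n hn
      obtain ⟨i, rfl⟩ : ∃ i, n = i + 1 := ⟨n - 1, by omega⟩
      rw [Nat.add_sub_cancel]
      rcases Nat.lt_or_ge i 2 with h | h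
      · obtain rfl : i = 1 := by omega
        rw [hb2 1 le_rfl, ha1, hb]
        norm_num
      · rw [shift _ _ (by omega), hb2 i (by omega), ha i h]
        obtain ⟨l, rfl⟩ : ∃ l, i = l + 1 := ⟨i - 1, by omega⟩
        rw [hb2 l (by omega), Nat.add_sub_cancel]
    refine le_trans ?_ (h1 b hbs (X + 1) (by omega))
    refine Nat.cast_le.2 ?_
    refine Set.ncard_le_ncard_of_injOn (fun n => n + 1) ?_ (fun x _ y _ h => by simpa using h)
      ((Set.finite_Icc 1 (X + 1)).subset fun n hn => ⟨hn.1, hn.2.1⟩)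
    rintro n ⟨g1, g2, g3⟩
    exact ⟨by omega, by omega, by rw [hb2 n g1]; exact g3⟩
  · refine le_trans ?_ (bound hc hC hX)
    refine le_trans ?_ (h2 (X + 1) (by omega))
    refine Nat.cast_le.2 ?_
    refine Set.ncard_le_ncard_of_injOn (fun n => n + 1) ?_ (fun x _ y _ h => by simpa using h)
      ((Set.finite_Icc 1 (X + 1)).subset fun n hn => ⟨hn.1, hn.2.1⟩)
    rintro n ⟨g1, g2, g3⟩
    refine ⟨by omega, by omega, ?_⟩
    push Not at g3 ⊢
    obtain ⟨a, g4, g5, n', g6, g7, g8⟩ := g3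
    refine ⟨fun i => a (i - 1), ?_, by simpa using g5, n' + 1, by omega, ?_, by simpa using g8⟩
    · intro i hi
      obtain ⟨l, rfl⟩ : ∃ l, i = l + 1 := ⟨i - 1, by omega⟩
      simp only [Nat.add_sub_cancel]
      rw [shift _ _ (by omega)]
      exact g4 l (by omega)
    · have hX' : (2 : ℝ) ≤ X := by exact_mod_cast hX
      have e1 : Real.log X ≤ Real.log ((X + 1 : ℕ) : ℝ) := Real.log_le_log (by linarith) (by push_cast; linarith)
      have e2 : Real.log X ^ (1 / 4 : ℝ) ≤ Real.log ((X + 1 : ℕ) : ℝ) ^ (1 / 4 : ℝ) :=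
        Real.rpow_le_rpow (Real.log_natCast_nonneg X) e1 (by norm_num)
      have e3 : Real.exp (c * Real.log X ^ (1 / 4 : ℝ)) ≤ Real.exp (c * Real.log ((X + 1 : ℕ) : ℝ) ^ (1 / 4 : ℝ)) :=
        Real.exp_le_exp.2 (by nlinarith)
      push_cast at e3 ⊢
      linarith

end Pool.Agent.Results.MP_9227d9_nt.FewZerosGapTwo
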