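import Pool.Agent.T2h83.GD.Least

/-!
# The places of the zeros of the gcd recursion: prime pairs `n + 1`, `n + 2 m + 1` for almost all `m` in the residue
# classes of every modulus up to `X ^ (5 / 6 - ρ)`

By part (i) of the question the large zeros of the recursion for `m` are at integers `n` for which `n + 1` and
`n + 2 m + 1` are primes; we call such an `n` a place for `m`. We count the places in all windows of length at least
`X / (log X)^W`, for almost all `m` in the residue classes of every modulus `q ≤ X ^ (θ - ρ)`, `2 / 3 ≤ θ ≤ 5 / 6`.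

For `1 ≤ u ≤ 3` let `F(u) = log u + ∫_1^(u/2) log ((u - s) / s) ds / s` (the integral is absent for `u ≤ 2`) and
`F = F (θ / (2 - 2 θ))`, so that `0 ≤ F ≤ 0.965` (and `F = 0` for `θ = 2 / 3`). For every residue class `a` modulo `q`
with `gcd(a, q) ≤ (log X)^T`, for all but at most `X / (q (log X)^A)` of the `m ≤ X`, `m ≡ a (mod q)`, the number of
the places for `m` in each of these windows is between `1 - F² - ε` times and `1 + F + ε` times the number
`𝔖(2 m) (v - u) / (log X)²` which Hardy and Littlewood predict. So if part (i) holds for such an `m` from `u` on,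
then the recursion has at most `(1 + F + ε) 𝔖(2 m) (v - u) / (log X)²` zeros in `(u, v]`.

The proof (projects GT and GD, `T2h83/GT`, `T2h83/GD`) compares the primes with the sieve function
`1_{no prime factor ≤ N ^ (1 - θ)}(n) * Σ_{d ∣ n, d > N ^ (1 - θ / 2)} Λ(d)`, which is at least `Λ`, whose mean value is
`1 + F`, and which is well distributed in the arithmetic progressions of the moduli `q r`, `r` small.
-/

set_option autoImplicit false

namespace Pool.Agent.Results.MP_9227d9_nt.PairsEveryModulus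

open Finset
open Pool.Agent.H560R3.GB (sing)

/-- the sequence of the problem -/
def IsSeq (m : ℕ) (s : ℕ → ℤ) : Prop :=
  s 1 = 4 * (m : ℤ) ^ 2 ∧ ∀ n : ℕ, 2 ≤ n →
    s n = |s (n - 1) - ((Int.gcd (s (n - 1)) ((n : ℤ) * ((n : ℤ) + 2 * (m : ℤ)))) : ℤ)|

/-- the number of the places `u < n ≤ v` for `m`: both `n + 1` and `n + 2 m + 1` are prime -/
def places (m u v : ℕ) : ℕ := ((Ioc u v).filter (fun n => (n + 1).Prime ∧ (n + 2 * m + 1).Prime)).card

open Classical in
/-- the number of the zeros `u < n ≤ v` of a sequence -/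
noncomputable def zeros (s : ℕ → ℤ) (u v : ℕ) : ℕ := ((Ioc u v).filter (fun n => s n = 0)).card

/-- Every window `(u, v] ⊆ [0, X]` of length at least `X / (log X)^W` contains between `lo` times and `hi` times
`𝔖(2 m) (v - u) / (log X)²` places for `m`. -/
def Good (W : ℕ) (lo hi : ℝ) (X m : ℕ) : Prop :=
  ∀ u v : ℕ, v ≤ X → (X : ℝ) / Real.log X ^ W ≤ (v : ℝ) - u →
    lo * (sing (2 * m) * ((v : ℝ) - u) / Real.log X ^ 2) ≤ (places m u v : ℝ) ∧
    (places m u v : ℝ) ≤ hi * (sing (2 * m) * ((v : ℝ) - u) / Real.log X ^ 2)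

/-- If the large zeros, from `u` on, of the recursion for `m` are places for `m`, then every window
`(u, v] ⊆ [0, X]` of length at least `X / (log X)^W` contains at most `hi 𝔖(2 m) (v - u) / (log X)²` zeros. -/
def FewZeros (W : ℕ) (hi : ℝ) (X m : ℕ) : Prop :=
  ∀ s : ℕ → ℤ, IsSeq m s → ∀ u v : ℕ, (∀ n : ℕ, u < n → s n = 0 → (n + 1).Prime ∧ (n + 2 * m + 1).Prime) →
    v ≤ X → (X : ℝ) / Real.log X ^ W ≤ (v : ℝ) - u →
    (zeros s u v : ℝ) ≤ hi * (sing (2 * m) * ((v : ℝ) - u) / Real.log X ^ 2)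

open Classical in
/-- the integers `1 ≤ m ≤ X`, `m ≡ a (mod q)`, which are not good -/
noncomputable def bad (W : ℕ) (lo hi : ℝ) (X q : ℕ) (a : ℤ) : Finset ℕ :=
  (Icc 1 X).filter (fun m : ℕ => (m : ℤ) ≡ a [ZMOD q] ∧ ¬ (Good W lo hi X m ∧ FewZeros W hi X m))

/-- the function `F(u) = log u + ∫_1^(u/2) log ((u - s) / s) ds / s` -/
noncomputable def F (u : ℝ) : ℝ := Real.log u + ∫ s in (1 : ℝ)..max 1 (u / 2), Real.log ((u - s) / s) / s

lemma few_of_good {W : ℕ} {lo hi : ℝ} {X m : ℕ} (h : Good W lo hi X m) : FewZeros W hi X m := by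
  classical
  intro s _ u v hs hv hlen
  refine le_trans ?_ (h u v hv hlen).2
  have : zeros s u v ≤ places m u v := by
    unfold zeros places
    apply card_le_card
    intro n hn
    rw [mem_filter, mem_Ioc] at hn ⊢
    exact ⟨hn.1, hs n hn.1.1 hn.2⟩
  exact_mod_cast this

/-- Let `2 / 3 ≤ θ ≤ 5 / 6` and `F = F (θ / (2 - 2 θ))`. Then `0 ≤ F ≤ 0.965`, and for all `ε, ρ > 0` and all
`A, W, T`, for all large `X`, every modulus `q ≤ X ^ (θ - ρ)` and every class `a` with `gcd(a, q) ≤ (log X)^T`, for all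
but at most `X / (q (log X)^A)` of the `m ≤ X`, `m ≡ a (mod q)`, every window `(u, v] ⊆ [0, X]` of length at least
`X / (log X)^W` contains between `1 - F² - ε` times and `1 + F + ε` times `𝔖(2 m) (v - u) / (log X)²` integers `n` with
`n + 1` and `n + 2 m + 1` prime; and so, if the zeros after `u` of the recursion for `m` are such integers, at most
`(1 + F + ε) 𝔖(2 m) (v - u) / (log X)²` zeros. -/
theorem result (θ : ℝ) (hθ0 : 2 / 3 ≤ θ) (hθ1 : θ ≤ 5 / 6) :
    (0 ≤ F (θ / (2 - 2 * θ)) ∧ F (θ / (2 - 2 * θ)) ≤ 0.965) ∧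
    ∀ ε : ℝ, 0 < ε → ∀ ρ : ℝ, 0 < ρ → ∀ A W T : ℕ, ∃ X₀ : ℕ, ∀ X : ℕ, X₀ ≤ X → ∀ q : ℕ, 1 ≤ q →
      (q : ℝ) ≤ (X : ℝ) ^ (θ - ρ) → ∀ a : ℤ, (Int.gcd a q : ℝ) ≤ Real.log X ^ T →
        ((bad W (1 - F (θ / (2 - 2 * θ)) ^ 2 - ε) (1 + F (θ / (2 - 2 * θ)) + ε) X q a).card : ℝ) ≤
          (X : ℝ) / (q * Real.log X ^ A) := by
  classical
  have hFU : ∀ u, F u = Pool.Agent.T2h83.GT.FU u := fun u => rfl
  obtain ⟨hb0, hb1⟩ := Pool.Agent.T2h83.GT.FU_bd hθ0 hθ1
  rw [hFU]
  refine ⟨⟨hb0, by linarith⟩, fun ε hε ρ hρ A W T => ?_⟩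
  obtain ⟨G, hG⟩ : ∃ G, G = Pool.Agent.T2h83.GT.FU (θ / (2 - 2 * θ)) := ⟨_, rfl⟩
  rw [← hG] at hb0 hb1 ⊢
  obtain ⟨η, hη⟩ : ∃ η : ℝ, η = min ε 1 / 8 := ⟨_, rfl⟩
  have hη0 : 0 < η := by rw [hη]; have := lt_min hε (show (0 : ℝ) < 1 by norm_num); linarith
  have hη1 : 8 * η ≤ 1 := by rw [hη]; have := min_le_right ε (1 : ℝ); linarith
  have hη2 : 8 * η ≤ ε := by rw [hη]; have := min_le_left ε (1 : ℝ); linarith
  obtain ⟨σ, hσ⟩ : ∃ σ : ℝ, σ = min ρ (1 / 10) / 2 := ⟨_, rfl⟩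
  have hσ0 : 0 < σ := by rw [hσ]; have := lt_min hρ (show (0 : ℝ) < 1 / 10 by norm_num); linarith
  have hσ1 : 2 * σ ≤ ρ := by rw [hσ]; have := min_le_left ρ (1 / 10 : ℝ); linarith
  have hσ2 : 2 * σ ≤ 1 / 10 := by rw [hσ]; have := min_le_right ρ (1 / 10 : ℝ); linarith
  obtain ⟨B, hB⟩ : ∃ B, B = A + W + T + 4 := ⟨_, rfl⟩
  obtain ⟨x₀, h1⟩ := Pool.Agent.T2h83.GD.gd_one η hη0 hθ0 hθ1 σ hσ0 B B
  rw [← hG] at h1
  obtain ⟨N₁, hN₁⟩ := exists_nat_ge x₀
  obtain ⟨N₂, h2⟩ := Filter.eventually_atTop.1 (Pool.Agent.Y614.GJ.Core.ev_log 1 (s := σ) hσ0 (100 + 4 / η))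
  refine ⟨N₁ + N₂ + 4, fun X hX q hq hqX a ha => ?_⟩
  obtain ⟨hL, hLp⟩ := h2 X (by omega)
  rw [pow_one] at hLp
  have h4η : 0 < 4 / η := by positivity
  obtain ⟨L, hLd⟩ : ∃ L, L = Real.log (X : ℝ) := ⟨_, rfl⟩
  rw [← hLd] at hL hLp ha
  have hL100 : 100 ≤ L := by linarith
  have hL0 : 0 < L := by linarith
  have hL1 : 1 ≤ L := by linarith
  have hLη : 4 ≤ η * L := by
    have : 4 / η ≤ L := by linarith
    rw [div_le_iff₀ hη0] at this
    linarith
  have hX4 : (4 : ℝ) ≤ X := by exact_mod_cast (by omega : 4 ≤ X)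
  have hX0 : (0 : ℝ) < X := by linarith
  have hX1 : (1 : ℝ) ≤ X := by linarith
  have hq0 : (0 : ℝ) < q := by exact_mod_cast hq
  obtain ⟨x, hx⟩ : ∃ x : ℝ, x = 2 * (X : ℝ) + 2 := ⟨_, rfl⟩
  have hx0 : 0 < x := by rw [hx]; linarith
  have hXx : (X : ℝ) ≤ x := by rw [hx]; linarith
  have hx3 : x ≤ 3 * X := by rw [hx]; linarith
  have hxx : x₀ ≤ x := by
    have : (N₁ : ℝ) ≤ X := by exact_mod_cast (by omega : N₁ ≤ X)
    linarith
  obtain ⟨l, hl⟩ : ∃ l, l = Real.log x := ⟨_, rfl⟩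
  have hLl : L ≤ l := by rw [hLd, hl]; exact Real.log_le_log hX0 hXx
  have hl0 : 0 < l := by linarith
  have hlL : l ≤ (1 + η / 2) * L := by
    have e1 : l ≤ Real.log (3 * X) := by rw [hl]; exact Real.log_le_log hx0 hx3
    rw [Real.log_mul (by norm_num) hX0.ne', ← hLd] at e1
    have e2 : Real.log 3 ≤ 2 := by
      have := Real.log_le_sub_one_of_pos (show (0 : ℝ) < 3 by norm_num)
      linarith
    linarith
  have hqx : ((2 * q : ℕ) : ℝ) ≤ x ^ (θ - σ) := by
    have e2 : (2 : ℝ) ≤ (X : ℝ) ^ σ := by linarith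
    push_cast
    calc (2 * q : ℝ) ≤ (X : ℝ) ^ σ * (X : ℝ) ^ (θ - 2 * σ) := by
          apply mul_le_mul e2 _ hq0.le (by positivity)
          exact hqX.trans (Real.rpow_le_rpow_of_exponent_le hX1 (by linarith))
      _ = (X : ℝ) ^ (θ - σ) := by rw [← Real.rpow_add hX0]; congr 1; ring
      _ ≤ x ^ (θ - σ) := Real.rpow_le_rpow hX0.le hXx (by linarith)
  have hgcd : (Int.gcd (2 * a) ((2 * q : ℕ) : ℤ) : ℝ) ≤ l ^ B := by
    have e1 : Int.gcd (2 * a) ((2 * q : ℕ) : ℤ) = 2 * Int.gcd a q := by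
      have : ((2 * q : ℕ) : ℤ) = 2 * (q : ℤ) := by push_cast; ring
      rw [this, Int.gcd_mul_left]
      rfl
    rw [e1]
    push_cast
    calc 2 * (Int.gcd a q : ℝ) ≤ L * L ^ T := by gcongr; linarith
      _ = L ^ (T + 1) := by ring
      _ ≤ L ^ B := pow_le_pow_right₀ hL1 (by omega)
      _ ≤ l ^ B := pow_le_pow_left₀ hL0.le hLl B
  rw [hl] at hgcd
  obtain ⟨g1, g2⟩ := h1 x hxx (2 * q) (by omega) hqx (2 * a) hgcd
  rw [← hl] at g2
  -- the exceptional set
  have hmaps : ∀ m ∈ bad W (1 - G ^ 2 - ε) (1 + G + ε) X q a, 2 * m ∈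
      Pool.Agent.T2h83.GD.exceptional 1 B (1 - G ^ 2 - η) (1 + G + η) x (2 * q) (2 * a) := by
    intro m hm
    unfold bad at hm
    rw [mem_filter, mem_Icc] at hm
    obtain ⟨⟨b1, b2⟩, b3, b4⟩ := hm
    have b2r : (m : ℝ) ≤ X := by exact_mod_cast b2
    refine ⟨by omega, ?_, ?_, Nat.coprime_one_right _, ?_, fun hgood => b4 ?_⟩
    · push_cast
      rw [hx]
      linarith
    · rw [one_mul]
      exact Dvd.intro m rfl
    · rw [Int.modEq_iff_dvd] at b3 ⊢
      obtain ⟨d, hd⟩ := b3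
      refine ⟨d, ?_⟩
      push_cast
      linear_combination 2 * hd
    have hG2 : Good W (1 - G ^ 2 - ε) (1 + G + ε) X m := by
      intro u v hv huv
      have hvr : (v : ℝ) ≤ X := by exact_mod_cast hv
      have hu0 : (0 : ℝ) ≤ u := Nat.cast_nonneg u
      have hX2 : 0 < (X : ℝ) / Real.log X ^ W := by rw [← hLd]; positivity
      have hΔ0 : 0 < (v : ℝ) - u := lt_of_lt_of_le hX2 huv
      have hlen : x / Real.log x ^ B ≤ ((v : ℝ) + 1) - ((u : ℝ) + 1) := by
        have e1 : x / l ^ B ≤ (X : ℝ) / L ^ W := by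
          rw [div_le_div_iff₀ (by positivity) (by positivity)]
          calc x * L ^ W ≤ (3 * X) * L ^ W := by gcongr
            _ ≤ (L * X) * L ^ W := by gcongr; linarith
            _ = X * L ^ (W + 1) := by ring
            _ ≤ X * l ^ B := by
                apply mul_le_mul_of_nonneg_left _ hX0.le
                exact (pow_le_pow_right₀ hL1 (by omega)).trans (pow_le_pow_left₀ hL0.le hLl B)
        rw [hl, hLd] at e1
        linarith
      obtain ⟨k1, k2⟩ := hgood ((u : ℝ) + 1) ((v : ℝ) + 1) (by linarith) (by rw [hx]; linarith) hlen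
      have e : Pool.Agent.T2h83.GD.pairs 1 (2 * m) ((u : ℝ) + 1) ((v : ℝ) + 1) = places m u v := by
        rw [Pool.Agent.T2h83.GD.pairs_eq 1 (2 * m) _ _ (by linarith) (by linarith)]
        have f1 : ⌊(u : ℝ) + 1⌋₊ = u + 1 := by exact_mod_cast Nat.floor_natCast (R := ℝ) (u + 1)
        have f2 : ⌊(v : ℝ) + 1⌋₊ = v + 1 := by exact_mod_cast Nat.floor_natCast (R := ℝ) (v + 1)
        rw [f1, f2]
        unfold Pool.Agent.T2h83.GD.cntD places
        symm
        refine card_bij' (fun n _ => n + 1) (fun p _ => p - 1) ?_ ?_ ?_ ?_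
        · intro n hn
          rw [mem_filter, mem_Ioc] at hn ⊢
          refine ⟨⟨by omega, by omega⟩, hn.2.1, ?_⟩
          have : 1 * (n + 1) + 2 * m = n + 2 * m + 1 := by ring
          rw [this]
          exact hn.2.2
        · intro p hp
          rw [mem_filter, mem_Ioc] at hp ⊢
          refine ⟨⟨by omega, by omega⟩, ?_, ?_⟩
          · have : p - 1 + 1 = p := by omega
            rw [this]
            exact hp.2.1
          · have : p - 1 + 2 * m + 1 = 1 * p + 2 * m := by omega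
            rw [this]
            exact hp.2.2
        · intro n _
          omega
        · intro p hp
          rw [mem_filter, mem_Ioc] at hp
          omega
      rw [e, one_mul, ← hl] at k1 k2
      rw [show ((v : ℝ) + 1) - ((u : ℝ) + 1) = (v : ℝ) - u by ring] at k1 k2
      obtain ⟨S, hS⟩ : ∃ S, S = sing (2 * m) := ⟨_, rfl⟩
      have hS1 : 1 ≤ S := by rw [hS]; exact Pool.Agent.R460.GS.one_le_sing _
      rw [← hS] at k1 k2 ⊢
      rw [← hLd]
      obtain ⟨Δ, hΔ⟩ : ∃ Δ : ℝ, Δ = (v : ℝ) - u := ⟨_, rfl⟩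
      rw [← hΔ] at k1 k2 hΔ0 ⊢
      have hSΔ : 0 < S * Δ := by positivity
      have c1 : (1 - 2 * η) * (S * Δ / L ^ 2) ≤ S * Δ / l ^ 2 := by
        rw [← mul_div_assoc, div_le_div_iff₀ (by positivity) (by positivity)]
        have d1 : l ^ 2 ≤ (1 + η / 2) ^ 2 * L ^ 2 := by
          rw [← mul_pow]
          exact pow_le_pow_left₀ hl0.le hlL 2
        have d2 : (1 - 2 * η) * (1 + η / 2) ^ 2 ≤ 1 := by nlinarith [sq_nonneg η]
        calc (1 - 2 * η) * (S * Δ) * l ^ 2 ≤ (1 - 2 * η) * (S * Δ) * ((1 + η / 2) ^ 2 * L ^ 2) := by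
              apply mul_le_mul_of_nonneg_left d1
              apply mul_nonneg _ hSΔ.le
              linarith
          _ = ((1 - 2 * η) * (1 + η / 2) ^ 2) * (S * Δ * L ^ 2) := by ring
          _ ≤ 1 * (S * Δ * L ^ 2) := mul_le_mul_of_nonneg_right d2 (by positivity)
          _ = S * Δ * L ^ 2 := one_mul _
      have c2 : S * Δ / l ^ 2 ≤ S * Δ / L ^ 2 :=
        div_le_div_of_nonneg_left hSΔ.le (by positivity) (pow_le_pow_left₀ hL0.le hLl 2)
      have c3 : 0 ≤ S * Δ / L ^ 2 := by positivity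
      have hG3 : G ^ 2 ≤ (965 / 1000) ^ 2 := pow_le_pow_left₀ hb0 hb1 2
      norm_num at hG3
      have hG4 : 0 ≤ G ^ 2 := sq_nonneg G
      constructor
      · rcases le_or_gt (1 - G ^ 2 - η) 0 with hc | hc
        · have : (1 - G ^ 2 - ε) * (S * Δ / L ^ 2) ≤ 0 := mul_nonpos_of_nonpos_of_nonneg (by linarith) c3
          have h0 : (0 : ℝ) ≤ (places m u v : ℝ) := Nat.cast_nonneg _
          linarith
        · refine le_trans ?_ k1
          calc (1 - G ^ 2 - ε) * (S * Δ / L ^ 2) ≤ ((1 - G ^ 2 - η) * (1 - 2 * η)) * (S * Δ / L ^ 2) := by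
                apply mul_le_mul_of_nonneg_right _ c3
                nlinarith
            _ = (1 - G ^ 2 - η) * ((1 - 2 * η) * (S * Δ / L ^ 2)) := by ring
            _ ≤ (1 - G ^ 2 - η) * (S * Δ / l ^ 2) := mul_le_mul_of_nonneg_left c1 hc.le
      · refine k2.trans ?_
        calc (1 + G + η) * (S * Δ / l ^ 2) ≤ (1 + G + η) * (S * Δ / L ^ 2) := by
              apply mul_le_mul_of_nonneg_left c2
              linarith
          _ ≤ (1 + G + ε) * (S * Δ / L ^ 2) := by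
              apply mul_le_mul_of_nonneg_right _ c3
              linarith
    exact ⟨hG2, few_of_good hG2⟩
  have h3 : ((bad W (1 - G ^ 2 - ε) (1 + G + ε) X q a).card : ℝ) ≤
      ((Pool.Agent.T2h83.GD.exceptional 1 B (1 - G ^ 2 - η) (1 + G + η) x (2 * q) (2 * a)).ncard : ℝ) := by
    have e1 : (bad W (1 - G ^ 2 - ε) (1 + G + ε) X q a).card =
        ((bad W (1 - G ^ 2 - ε) (1 + G + ε) X q a).image (fun m => 2 * m)).card := by
      rw [card_image_of_injective _ (fun m m' (h : 2 * m = 2 * m') => by omega)]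
    have e2 : (((bad W (1 - G ^ 2 - ε) (1 + G + ε) X q a).image (fun m => 2 * m) : Finset ℕ) : Set ℕ) ⊆
        Pool.Agent.T2h83.GD.exceptional 1 B (1 - G ^ 2 - η) (1 + G + η) x (2 * q) (2 * a) := by
      intro h hh
      rw [mem_coe, mem_image] at hh
      obtain ⟨m, hm, rfl⟩ := hh
      exact hmaps m hm
    have e3 := Set.ncard_le_ncard e2 g1
    rw [Set.ncard_coe_finset] at e3
    rw [e1]
    exact_mod_cast e3
  refine h3.trans (g2.trans ?_)
  rw [← hLd, div_le_div_iff₀ (by positivity) (by positivity)]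
  push_cast
  calc x * (q * L ^ A) ≤ (3 * X) * (q * L ^ A) := by gcongr
    _ ≤ (L * X) * (q * L ^ A) := by gcongr; linarith
    _ = X * (q * L ^ (A + 1)) := by ring
    _ ≤ X * (q * l ^ B) := by
        have : L ^ (A + 1) ≤ l ^ B :=
          (pow_le_pow_right₀ hL1 (by omega)).trans (pow_le_pow_left₀ hL0.le hLl B)
        gcongr
    _ ≤ X * (2 * q * l ^ B) := by
        apply mul_le_mul_of_nonneg_left _ hX0.le
        have : 0 ≤ q * l ^ B := by positivity
        linarith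

end Pool.Agent.Results.MP_9227d9_nt.PairsEveryModulus
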