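import Mathlib
import Pool.Agent.T2h83.TH.QVec

/-!
# The places of the zeros of the gcd recursion: prime pairs `n + 1`, `n + 2 m + 1` for `m` in thin sets

By part (i) of the question the large zeros of the recursion for `m` are at integers `n` for which `n + 1` and
`n + 2 m + 1` are primes; we call such an `n` a place for `m`. For almost all moduli `q` and for EVERY set `S` of integers
`m ≤ N / 2` which lies in one residue class modulo `q` and has, up to a power of the logarithm, not more additive energy (of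
some order `t`) than the whole class, the number of the places `n < N` for `m` satisfies the asymptotic formula of Hardy and
Littlewood for almost all `m ∈ S`; so if part (i) holds for such an `m` from `u` on, the recursion has not many more zeros
between `u` and `N`. Such sets can have as few as `(N / q) ^ (1 / t)` elements. For instance `S` can be the set of the values
of a quadratic polynomial at the elements of a residue class modulo `q`, for `q` up to `N ^ (1 / 4)`.

Method: Parseval and Hoelder with the moment of order `2 t` of the exponential sum of `S`, whose absolute value has the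
period `1 / q`, and the bound of project AM for the mean square of the exponential sum of `Λ` minus a sieve model over the
translates by the multiples of `1 / q`; for the quadratic polynomials the mean value of Vinogradov for three variables.
-/

set_option autoImplicit false

namespace Pool.Agent.Results.MP_9227d9_nt.PairsInThinSets

open Finset Filter

/-- the sequence of the problem -/
def IsSeq (m : ℕ) (s : ℕ → ℤ) : Prop :=
  s 1 = 4 * (m : ℤ) ^ 2 ∧ ∀ n : ℕ, 2 ≤ n →
    s n = |s (n - 1) - ((Int.gcd (s (n - 1)) ((n : ℤ) * ((n : ℤ) + 2 * (m : ℤ)))) : ℤ)|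

/-- the number of the places `n < N` for `m`: both `n + 1` and `n + 2 m + 1` are prime -/
def places (m N : ℕ) : ℕ := ((range N).filter (fun n => (n + 1).Prime ∧ (n + 2 * m + 1).Prime)).card

open Classical in
/-- the number of the zeros `u < n < N` of a sequence -/
noncomputable def zeros (s : ℕ → ℤ) (u N : ℕ) : ℕ := ((Ioo u N).filter (fun n => s n = 0)).card

/-- twice the product over the primes `2 < l ≤ z` of `l / (l - 1)` for the divisors `l` of `m` and of
`l (l - 2) / (l - 1) ^ 2` for the other primes `l` -/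
noncomputable def constant (m z : ℕ) : ℝ :=
  2 * ∏ l ∈ (Icc 3 z).filter Nat.Prime, if l ∣ m then (l : ℝ) / (l - 1) else (l : ℝ) * (l - 2) / (l - 1) ^ 2

/-- `constant m z` has a limit `P ≥ κ`, the number of the places `n < N` for `m` lies between `1 - ε` times and `1 + ε` times
`P N / (log N) ^ 2`, and if all zeros `n > u` of the recursion for `m` are places for `m`, then it has at most `1 + ε` times
`P N / (log N) ^ 2` zeros between `u` and `N` -/
def Predicted (κ ε : ℝ) (N m : ℕ) : Prop :=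
  ∃ P : ℝ, κ ≤ P ∧ Tendsto (constant m) atTop (nhds P) ∧
    |(places m N : ℝ) - P * N / Real.log N ^ 2| ≤ ε * (P * N / Real.log N ^ 2) ∧
    ∀ s : ℕ → ℤ, IsSeq m s → ∀ u : ℕ, (∀ n : ℕ, u < n → s n = 0 → (n + 1).Prime ∧ (n + 2 * m + 1).Prime) →
      (zeros s u N : ℝ) ≤ (1 + ε) * (P * N / Real.log N ^ 2)

/-- the constant for the difference `h` -/
noncomputable def cst (h z : ℕ) : ℝ :=
  2 * ∏ l ∈ (Icc 3 z).filter Nat.Prime, if l ∣ h then (l : ℝ) / (l - 1) else (l : ℝ) * (l - 2) / (l - 1) ^ 2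

lemma cst_eq (m z : ℕ) : cst (2 * m) z = constant m z := by
  unfold cst constant
  congr 1
  refine prod_congr rfl fun l hl => ?_
  rw [mem_filter, mem_Icc] at hl
  have h1 : l ∣ 2 * m ↔ l ∣ m := by
    constructor
    · intro h
      rcases hl.2.dvd_mul.1 h with h2 | h2
      · have := Nat.le_of_dvd (by norm_num) h2
        omega
      · exact h2
    · intro h
      exact h.mul_left 2
  simp only [h1]

open Pool.Agent.T2h83.AM in
lemma nu_odd (h l : ℕ) (hl : l.Prime) (h3 : 3 ≤ l) :
    nuL (fun _ : Fin 1 => 1) (fun _ => h) l = if l ∣ h then 1 else 2 := by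
  have : Fact l.Prime := ⟨hl⟩
  have h4 : ¬ l ∣ 1 := by
    intro hd
    have := Nat.le_of_dvd (by norm_num) hd
    omega
  split_ifs with hd
  · unfold nuL
    rw [card_eq_one]
    refine ⟨0, ?_⟩
    ext n
    rw [mem_filter, mem_range, mem_singleton]
    constructor
    · rintro ⟨h1, h2 | ⟨i, hi⟩⟩
      · exact Nat.eq_zero_of_dvd_of_lt h2 h1
      · have h5 : l ∣ 1 * n := (Nat.dvd_add_left hd).1 hi
        exact Nat.eq_zero_of_dvd_of_lt ((hl.dvd_mul.1 h5).resolve_left h4) h1
    · rintro rfl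
      exact ⟨hl.pos, Or.inl (dvd_zero _)⟩
  · have h1 := nuL_le (k := 1) (fun _ : Fin 1 => 1) (fun _ => h) l hl (fun _ h => h4 h.1)
    have hh : 1 ≤ h := Nat.pos_of_ne_zero (fun h0 => hd (h0 ▸ dvd_zero _))
    have h2 := nuL_good (k := 1) (fun _ : Fin 1 => 1) (fun _ => h)
      ⟨fun _ => hh, fun i j hij => absurd (Subsingleton.elim i j) hij⟩ l hl (fun _ => h4) (by
        unfold badL
        rw [mem_union, mem_biUnion, mem_biUnion]
        rintro (⟨i, -, hi⟩ | ⟨t, ht, -⟩)
        · exact hd (Nat.dvd_of_mem_primeFactors hi)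
        · rw [mem_filter] at ht
          exact ht.2 (Subsingleton.elim _ _))
    omega

open Pool.Agent.T2h83.AM in
lemma nu_two (h : ℕ) (hh : Even h) : nuL (fun _ : Fin 1 => 1) (fun _ => h) 2 = 1 := by
  unfold nuL
  rw [card_eq_one]
  refine ⟨0, ?_⟩
  ext n
  rw [mem_filter, mem_range, mem_singleton]
  constructor
  · rintro ⟨h1, h2 | ⟨i, hi⟩⟩
    · exact Nat.eq_zero_of_dvd_of_lt h2 h1
    · obtain ⟨m, rfl⟩ := hh
      simp only at hi
      omega
  · rintro rfl
    exact ⟨by norm_num, Or.inl (dvd_zero _)⟩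

open Pool.Agent.T2h83.AM in
lemma constant_eq (s z : ℕ) (hs : Even s) (hz : 2 ≤ z) : sgL (fun _ : Fin 1 => 1) (fun _ => s) z = cst s z := by
  unfold sgL cst Pool.Agent.H373R2.T7.pz
  have h1 : (Icc 1 z).filter Nat.Prime = insert 2 ((Icc 3 z).filter Nat.Prime) := by
    ext p
    rw [mem_insert, mem_filter, mem_filter, mem_Icc, mem_Icc]
    constructor
    · rintro ⟨⟨h1, h2⟩, h3⟩
      have := h3.two_le
      rcases Nat.eq_or_lt_of_le this with h4 | h4
      · exact Or.inl h4.symm
      · exact Or.inr ⟨⟨h4, h2⟩, h3⟩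
    · rintro (rfl | ⟨⟨h1, h2⟩, h3⟩)
      · exact ⟨⟨by norm_num, hz⟩, Nat.prime_two⟩
      · exact ⟨⟨by omega, h2⟩, h3⟩
  rw [h1, prod_insert (by
    intro h2
    rw [mem_filter, mem_Icc] at h2
    omega)]
  congr 1
  · unfold FpL
    rw [nu_two _ hs]
    norm_num
  · refine prod_congr rfl fun l hl => ?_
    rw [mem_filter, mem_Icc] at hl
    unfold FpL
    rw [nu_odd _ _ hl.2 hl.1.1]
    have hl3 : (3 : ℝ) ≤ l := by exact_mod_cast hl.1.1
    have e1 : (l : ℝ) - 1 ≠ 0 := by
      have : (0 : ℝ) < l - 1 := by linarith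
      exact this.ne'
    have e2 : (l : ℝ) ≠ 0 := by positivity
    have e3 : (1 : ℝ) - 1 / l = (l - 1) / l := by field_simp
    rw [e3]
    split_ifs
    · push_cast
      field_simp
    · push_cast
      field_simp

lemma adm (s : ℕ) (hs : Even s) : Pool.Agent.T2h83.AM.AdmL (fun _ : Fin 1 => 1) (fun _ => s) := by
  intro l hl
  by_cases h2 : l = 2
  · subst h2
    refine ⟨1, by norm_num, fun _ => ?_⟩
    obtain ⟨m, rfl⟩ := hs
    simp only
    omega
  · have h3 : 3 ≤ l := by
      have := hl.two_le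
      omega
    have h1 : Pool.Agent.T2h83.AM.nuL (fun _ : Fin 1 => 1) (fun _ => s) l ≤ 2 := by
      rw [nu_odd _ _ hl h3]
      split_ifs <;> norm_num
    by_contra hcon
    push Not at hcon
    have h4 : Pool.Agent.T2h83.AM.nuL (fun _ : Fin 1 => 1) (fun _ => s) l = l := by
      unfold Pool.Agent.T2h83.AM.nuL
      rw [filter_true_of_mem, card_range]
      intro n _
      by_cases h5 : l ∣ n
      · exact Or.inl h5
      · exact Or.inr (hcon n h5)
    omega



lemma places_eq (m N : ℕ) : places m N = Pool.Agent.T2h83.AM.cntL (fun _ : Fin 1 => 1) (fun _ => 2 * m) N := by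
  unfold places Pool.Agent.T2h83.AM.cntL
  refine card_bij' (fun n _ => n + 1) (fun p _ => p - 1) ?_ ?_ ?_ ?_
  · intro n hn
    rw [mem_filter, mem_range] at hn
    rw [mem_filter, mem_Icc]
    refine ⟨⟨by omega, by omega⟩, hn.2.1, fun _ => ?_⟩
    have : 1 * (n + 1) + 2 * m = n + 2 * m + 1 := by ring
    rw [this]
    exact hn.2.2
  · intro p hp
    rw [mem_filter, mem_Icc] at hp
    rw [mem_filter, mem_range]
    refine ⟨by omega, ?_, ?_⟩
    · have : p - 1 + 1 = p := by omega
      rw [this]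
      exact hp.2.1
    · have : p - 1 + 2 * m + 1 = 1 * p + 2 * m := by omega
      rw [this]
      exact hp.2.2 0
  · intro n _
    simp
  · intro p hp
    rw [mem_filter, mem_Icc] at hp
    show p - 1 + 1 = p
    omega

lemma zeros_le {m u N : ℕ} {s : ℕ → ℤ} (h : ∀ n : ℕ, u < n → s n = 0 → (n + 1).Prime ∧ (n + 2 * m + 1).Prime) :
    zeros s u N ≤ places m N := by
  classical
  unfold zeros places
  apply card_le_card
  intro n hn
  rw [mem_filter, mem_Ioo] at hn
  rw [mem_filter, mem_range]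
  exact ⟨hn.1.2, h n hn.1.1 hn.2⟩

open Pool.Agent.T2h83.AM in
lemma predicted_of {κ ε : ℝ} {N m : ℕ} (h4 : GoodC ε κ N (fun _ : Fin 1 => 1) (fun _ => 2 * m)) : Predicted κ ε N m := by
  obtain ⟨S, g1, g2, g3⟩ := h4 (adm (2 * m) (even_two_mul m))
  rw [← places_eq] at g3
  have e8 : (1 + 1 : ℕ) = 2 := rfl
  rw [e8] at g3
  refine ⟨S, g1, ?_, g3, fun s _ u hu => ?_⟩
  · refine g2.congr' ?_
    filter_upwards [eventually_ge_atTop 2] with z hz
    rw [constant_eq (2 * m) z (even_two_mul m) hz, cst_eq]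
  · have h5 : (zeros s u N : ℝ) ≤ places m N := by exact_mod_cast zeros_le hu
    rw [abs_le] at g3
    linarith [g3.2]

/-- the number of the pairs of `t`-tuples of elements of `S` with the same sum -/
def energy (t : ℕ) (S : Finset ℕ) : ℕ :=
  (((Fintype.piFinset (fun _ : Fin t => S)) ×ˢ (Fintype.piFinset (fun _ : Fin t => S))).filter
    (fun x => ∑ i, x.1 i = ∑ i, x.2 i)).card

/-- `S` is a set of numbers up to `N / 2` in one residue class modulo `q` and the number `energy t S` is at most `(log N) ^ T`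
times `|S| ^ (2 t) q / N` -/
def ThinSet (t T N q : ℕ) (S : Finset ℕ) : Prop :=
  (∀ m ∈ S, 2 * m ≤ N) ∧ (∃ r : ℕ, ∀ m ∈ S, m % q = r % q) ∧
    (energy t S : ℝ) ≤ (S.card : ℝ) ^ (2 * t) * q * Real.log N ^ T / N

open Classical in
/-- There is a constant `κ > 0` such that for all `A`, `T` and `ε > 0` the following holds.

(1) For every `t ≥ 1` there are `B` and `N₀` such that for all `N ≥ N₀` and all integers `Q` with `Q (log N) ^ B ≤ N`, for all `q` in
`(Q, 2 Q]`, except for at most `Q / (log N) ^ A` of them, and for EVERY set `S` with `ThinSet t T N q S` at most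
`|S| / (log N) ^ A` elements `m` of `S` do not satisfy: the number of the `n < N` for which `n + 1` and `n + 2 m + 1` are prime
lies between `1 - ε` times and `1 + ε` times `P N / (log N) ^ 2`, where `P ≥ κ` is twice the product over the
primes `l > 2` of `l / (l - 1)` if `l` divides `m` and of `l (l - 2) / (l - 1) ^ 2` if not; and if all the zeros `n > u` of the
recursion for `m` are such integers, it has at most `1 + ε` times `P N / (log N) ^ 2` zeros between `u` and `N`.

(2) There are `B` and `N₀` such that for all `N ≥ N₀` and all integers `Q` with `Q (log N) ^ B ≤ N`, for all `q` in `(Q, 2 Q]`,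
except for at most `Q / (log N) ^ A` of them, and for ALL `a, b, c, ρ, V` with `a, V ≥ 1`, `N ≤ (q V) ^ 2 (log N) ^ T`,
`q ≤ V (log N) ^ T` and `gcd (2 a ρ + b, q) ≤ (log N) ^ T` for which the values `m (v) = a k ^ 2 + b k + c`, `k = ρ + q v`,
`0 ≤ v < V`, are at most `N / 2`, the number of the `v < V` for which `m (v)` does not satisfy the property of (1) is at most
`V / (log N) ^ A`. -/
theorem result : ∃ κ : ℝ, 0 < κ ∧ ∀ (A T : ℕ) (ε : ℝ), 0 < ε →
    (∀ t : ℕ, 1 ≤ t → ∃ B N₀ : ℕ, ∀ N : ℕ, N₀ ≤ N → ∀ Q : ℕ, (Q : ℝ) * Real.log N ^ B ≤ N →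
      ∃ E : Finset ℕ, (E.card : ℝ) ≤ Q / Real.log N ^ A ∧ ∀ q ∈ Ioc Q (2 * Q), q ∉ E →
        ∀ S : Finset ℕ, ThinSet t T N q S →
          ((S.filter (fun m => ¬ Predicted κ ε N m)).card : ℝ) ≤ (S.card : ℝ) / Real.log N ^ A) ∧
    (∃ B N₀ : ℕ, ∀ N : ℕ, N₀ ≤ N → ∀ Q : ℕ, (Q : ℝ) * Real.log N ^ B ≤ N →
      ∃ E : Finset ℕ, (E.card : ℝ) ≤ Q / Real.log N ^ A ∧ ∀ q ∈ Ioc Q (2 * Q), q ∉ E →
        ∀ a b c ρ V : ℕ, 1 ≤ a → 1 ≤ V → (∀ v < V, 2 * (a * (ρ + q * v) ^ 2 + b * (ρ + q * v) + c) ≤ N) →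
          (N : ℝ) ≤ (q * V : ℝ) ^ 2 * Real.log N ^ T → (q : ℝ) ≤ V * Real.log N ^ T →
          (Nat.gcd (2 * a * ρ + b) q : ℝ) ≤ Real.log N ^ T →
          (((range V).filter (fun v => ¬ Predicted κ ε N (a * (ρ + q * v) ^ 2 + b * (ρ + q * v) + c))).card : ℝ) ≤
            (V : ℝ) / Real.log N ^ A) := by
  obtain ⟨κ, hκ, hmain⟩ := Pool.Agent.T2h83.TH.thin_count (k := 1) (fun _ => 1) (fun _ => by norm_num)
  refine ⟨κ, hκ, fun A T ε hε => ?_⟩
  have key : ∀ t T : ℕ, 1 ≤ t → ∃ B N₀ : ℕ, ∀ N : ℕ, N₀ ≤ N → ∀ Q : ℕ, (Q : ℝ) * Real.log N ^ B ≤ N →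
      ∃ E : Finset ℕ, (E.card : ℝ) ≤ Q / Real.log N ^ A ∧ ∀ q ∈ Ioc Q (2 * Q), q ∉ E →
        ∀ S : Finset ℕ, ThinSet t T N q S →
          ((S.filter (fun m => ¬ Predicted κ ε N m)).card : ℝ) ≤ (S.card : ℝ) / Real.log N ^ A := by
    intro t T ht
    obtain ⟨B, N₀, h1⟩ := hmain A t T ε ht hε
    refine ⟨B, N₀, fun N hN Q hQ => ?_⟩
    obtain ⟨E, hE1, hE2⟩ := h1 N hN Q hQ
    refine ⟨E, hE1, fun q hq hqE S hS => ?_⟩
    have h2 := hE2 q hq hqE (fun _ => S.image (fun m => 2 * m + 0))
      (fun _ => Pool.Agent.T2h83.TH.thin_image 2 0 (by norm_num) (fun m hm => hS.1 m hm) hS.2.1 hS.2.2)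
    rw [Fin.prod_univ_one, Pool.Agent.T2h83.TH.card_image_aff S 2 0 (by norm_num)] at h2
    refine le_trans ?_ h2
    have h3 : (S.filter (fun m => ¬ Predicted κ ε N m)).card ≤
        ((Fintype.piFinset (fun _ : Fin 1 => S.image (fun m => 2 * m + 0))).filter
          (fun h => ¬ Pool.Agent.T2h83.AM.GoodC ε κ N (fun _ : Fin 1 => 1) h)).card := by
      apply card_le_card_of_injOn (fun m => (fun _ : Fin 1 => 2 * m))
      · intro m hm
        rw [mem_coe, mem_filter] at hm
        rw [mem_coe, mem_filter, Fintype.mem_piFinset]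
        exact ⟨fun _ => mem_image.2 ⟨m, hm.1, rfl⟩, fun hcon => hm.2 (predicted_of hcon)⟩
      · intro m _ m' _ h
        have := congrFun h 0
        simp only at this
        omega
    exact_mod_cast h3
  constructor
  · intro t ht
    exact key t T ht
  · obtain ⟨B, N₀, h1⟩ := key 3 (2 * T + 10) (by norm_num)
    obtain ⟨N₁, h2⟩ := Pool.Agent.T2h83.TH.quad_thin T
    refine ⟨B, N₀ + N₁, fun N hN Q hQ => ?_⟩
    obtain ⟨E, hE1, hE2⟩ := h1 N (by omega) Q hQ
    refine ⟨E, hE1, fun q hq hqE a b c ρ V ha hV hle hNV hqV hg => ?_⟩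
    have hq1 : 1 ≤ q := by rw [mem_Ioc] at hq; omega
    obtain ⟨h3, h4⟩ := h2 N (by omega) a b c q ρ V ha hq1 hV (fun v hv => by
      have := hle v hv
      omega) hNV hqV hg
    have h5 := hE2 q hq hqE ((range V).image (fun v => a * (ρ + q * v) ^ 2 + b * (ρ + q * v) + c)) ⟨fun s hs => by
      rw [mem_image] at hs
      obtain ⟨v, hv, rfl⟩ := hs
      exact hle v (mem_range.1 hv), h3, h4⟩
    rw [card_image_of_injOn (Pool.Agent.T2h83.TH.quad_inj ha hq1), card_range] at h5
    refine le_trans ?_ h5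
    have h6 : ((range V).filter (fun v => ¬ Predicted κ ε N (a * (ρ + q * v) ^ 2 + b * (ρ + q * v) + c))).card ≤
        (((range V).image (fun v => a * (ρ + q * v) ^ 2 + b * (ρ + q * v) + c)).filter (fun s => ¬ Predicted κ ε N s)).card := by
      apply card_le_card_of_injOn (fun v => a * (ρ + q * v) ^ 2 + b * (ρ + q * v) + c)
      · intro v hv
        rw [mem_coe, mem_filter] at hv
        rw [mem_coe, mem_filter]
        exact ⟨mem_image.2 ⟨v, hv.1, rfl⟩, hv.2⟩
      · intro v hv w hw h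
        rw [mem_coe, mem_filter] at hv hw
        exact Pool.Agent.T2h83.TH.quad_inj (V := V) ha hq1 hv.1 hw.1 h
    exact_mod_cast h6

end Pool.Agent.Results.MP_9227d9_nt.PairsInThinSets
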